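import Mathlib
import Pool.Agent.H93.Cube

/-!
# Bernstein–Markov inequality on the discrete cube for `p = 2, 6, 10, 14, …`
-/

namespace Pool.Agent.Results.MP_b4c0b6_an.CubeBernsteinMarkov

open Finset

/-- **Q1 for all `p ≡ 2 (mod 4)`**, with an explicit constant. A point of the cube `{-1,1}ⁿ` is
coded by the set `T` of coordinates equal to `-1`, so that `χ_S` takes the value
`(-1) ^ |S ∩ T|` there; a complex valued function `f` of degree at most `d` is
`∑ S, a S χ_S` with `a S = 0` for `|S| > d`, and `Δ f = ∑ S, |S| a S χ_S`. Then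
`‖Δ f‖_p ≤ e p d ‖f‖_p`, for the uniform probability measure. -/
theorem result (p : ℕ) (hp : p % 4 = 2) (d n : ℕ) (a : Finset (Fin n) → ℂ)
    (ha : ∀ S : Finset (Fin n), d < S.card → a S = 0) :
    ((∑ T : Finset (Fin n),
          ‖∑ S : Finset (Fin n), a S * (S.card : ℂ) * (-1 : ℂ) ^ (S ∩ T).card‖ ^ p)
        / (2 : ℝ) ^ n) ^ (1 / (p : ℝ))
      ≤ Real.exp 1 * p * d *
        ((∑ T : Finset (Fin n), ‖∑ S : Finset (Fin n), a S * (-1 : ℂ) ^ (S ∩ T).card‖ ^ p)
          / (2 : ℝ) ^ n) ^ (1 / (p : ℝ)) := by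
  obtain ⟨k, rfl⟩ : ∃ k, p = 4 * k + 2 := ⟨p / 4, by omega⟩
  have h := H93.Cube.main k d n a ha
  simp only [H93.Cube.chi] at h
  rw [Real.div_rpow (Finset.sum_nonneg fun _ _ => by positivity) (by positivity),
    Real.div_rpow (Finset.sum_nonneg fun _ _ => by positivity) (by positivity), ← mul_div_assoc]
  gcongr

end Pool.Agent.Results.MP_b4c0b6_an.CubeBernsteinMarkov
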