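import Mathlib
import Pool.Agent.H93.RHTransfer
import Pool.Agent.H22.RH.Cube

/-!
# No linear Bernstein–Markov bound on the discrete cube for `1 < p < 2`
-/

namespace Pool.Agent.Results.MP_b4c0b6_an.CubeFailure

open Finset Pool.Agent.H22.RH

/-- **Q1 fails for every `1 < p < 2`** (the notation is that of the frozen statement `S05881`): for
every `p` in `(1, 2)` and every `c > 0` there are `d, n ≥ 1` and a function on `{-1,1}ⁿ` of degree at
most `d`, with Fourier coefficients `a`, such that `‖Δ f‖_p > c d ‖f‖_p`. -/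
theorem result (p : ℝ) (hp1 : 1 < p) (hp2 : p < 2) (c : ℝ) (hc : 0 < c) :
    ∃ d n : ℕ, 1 ≤ d ∧ 1 ≤ n ∧ ∃ a : Finset (Fin n) → ℝ,
      (∀ S : Finset (Fin n), d < S.card → a S = 0) ∧
      c * (d : ℝ) *
          ((∑ T : Finset (Fin n), |∑ S : Finset (Fin n), a S * (-1 : ℝ) ^ (S ∩ T).card| ^ p)
            / (2 : ℝ) ^ n) ^ (1 / p) <
        ((∑ T : Finset (Fin n),
            |∑ S : Finset (Fin n), a S * (S.card : ℝ) * (-1 : ℝ) ^ (S ∩ T).card| ^ p)
          / (2 : ℝ) ^ n) ^ (1 / p) := by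
  by_contra hcon
  push Not at hcon
  have hL : LapIneq p c := by
    intro d n hd hn a ha
    exact hcon d n hd hn a ha
  exact Pool.Agent.H93.RH.not_good alphB hp1.le hp2 hc.le
    (fun r hr => cube_good hp1 hc.le hL hr)

end Pool.Agent.Results.MP_b4c0b6_an.CubeFailure
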