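import Mathlib
import Pool.Agent.H88.BMReals

/-!
# Bernstein–Markov inequality (reverse heat smoothing) in Gaussian space for all real `p ≥ 2`
-/

namespace Pool.Agent.Results.MP_b4c0b6_an.GaussBernsteinMarkov

open MvPolynomial MeasureTheory ProbabilityTheory

/-- **Q2 for all real `p ≥ 2`**, with an explicit constant, bounded uniformly in `p`. Let `γ` be
the standard Gaussian measure on `ℝⁿ` and `f` a real polynomial in `n` variables of total degree
at most `d`. Then `‖N f‖_p ≤ (2 e (p - 1) / p) d ‖f‖_p`, where `N f = Δ f - x · ∇ f`. -/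
theorem result (p : ℝ) (hp : 2 ≤ p) (n d : ℕ) (f : MvPolynomial (Fin n) ℝ)
    (hf : f.totalDegree ≤ d) :
    eLpNorm (fun x : Fin n → ℝ =>
        ∑ i, (eval x (pderiv i (pderiv i f)) - x i * eval x (pderiv i f)))
        (ENNReal.ofReal p) (Measure.pi fun _ => gaussianReal 0 1)
      ≤ ENNReal.ofReal (2 * Real.exp 1 * (p - 1) / p * d) *
        eLpNorm (fun x : Fin n → ℝ => eval x f) (ENNReal.ofReal p)
          (Measure.pi fun _ => gaussianReal 0 1) :=
  H88BM.real_bernstein_markov p hp n d f hf

end Pool.Agent.Results.MP_b4c0b6_an.GaussBernsteinMarkov
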