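import Mathlib
import Pool.Agent.H93.RHBase
import Pool.Agent.H88.BMReals

/-!
# The linear Bernstein–Markov bound in Gauss space holds exactly for `p ≥ 2`
-/

namespace Pool.Agent.Results.MP_b4c0b6_an.GaussComplete

open MvPolynomial MeasureTheory ProbabilityTheory
open scoped ENNReal

/-- **Complete answer to Q2.** Let `p > 1`. There is a constant `c > 0` such that
`‖N f‖_p ≤ c d ‖f‖_p` for all `d, n ≥ 1` and all real polynomials `f` in `n` variables of total degree
at most `d` (norms for the standard Gaussian measure on `ℝⁿ`, `N f = Δ f - x · ∇ f`) if and only if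
`p ≥ 2`. -/
theorem result (p : ℝ) (hp : 1 < p) :
    (∃ c : ℝ, 0 < c ∧ ∀ d n : ℕ, 1 ≤ d → 1 ≤ n → ∀ f : MvPolynomial (Fin n) ℝ,
      f.totalDegree ≤ d →
        eLpNorm (fun x : Fin n → ℝ =>
            ∑ i, (eval x (pderiv i (pderiv i f)) - x i * eval x (pderiv i f)))
            (ENNReal.ofReal p) (Measure.pi fun _ => gaussianReal 0 1)
          ≤ ENNReal.ofReal (c * d) *
            eLpNorm (fun x : Fin n → ℝ => eval x f) (ENNReal.ofReal p)
              (Measure.pi fun _ => gaussianReal 0 1)) ↔ 2 ≤ p := by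
  constructor
  · rintro ⟨c, hc, h⟩
    by_contra hp2
    rw [not_le] at hp2
    have hp0 : 0 < p := by linarith
    have hG := Pool.Agent.H93.RH.alphG
    have hL : MemLp (id : ℝ → ℝ) (ENNReal.ofReal p) (gaussianReal 0 1) :=
      hG.memLp (by linarith)
    refine Pool.Agent.H93.RH.not_good hG hp.le hp2 hc.le
      (Pool.Agent.H93.RH.good_of_lap hp.le hc.le measurable_id hL ?_)
    intro n d hn hd a ha
    have h1 := h d n hd hn (Pool.Agent.H93.RH.mlP a) (Pool.Agent.H93.RH.degree_mlP a ha)
    have m1 : MemLp (fun x : Fin n → ℝ => Pool.Agent.H93.RH.ml a x) (ENNReal.ofReal p)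
        (Measure.pi fun _ => gaussianReal 0 1) :=
      Pool.Agent.H93.RH.memLp_ml (ι := Fin n) hp0 measurable_id hL a
    have m2 : MemLp (fun x : Fin n → ℝ =>
        Pool.Agent.H93.RH.ml (fun S => (S.card : ℝ) * a S) x) (ENNReal.ofReal p)
        (Measure.pi fun _ => gaussianReal 0 1) :=
      Pool.Agent.H93.RH.memLp_ml (ι := Fin n) hp0 measurable_id hL (fun S => (S.card : ℝ) * a S)
    simp only [Pool.Agent.H93.RH.eval_mlP, Pool.Agent.H93.RH.ou_mlP] at h1
    have e : eLpNorm (fun x : Fin n → ℝ => -Pool.Agent.H93.RH.ml (fun S => (S.card : ℝ) * a S) x)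
        (ENNReal.ofReal p) (Measure.pi fun _ => gaussianReal 0 1) =
        eLpNorm (fun x : Fin n → ℝ => Pool.Agent.H93.RH.ml (fun S => (S.card : ℝ) * a S) x)
        (ENNReal.ofReal p) (Measure.pi fun _ => gaussianReal 0 1) :=
      eLpNorm_neg (fun x : Fin n → ℝ => Pool.Agent.H93.RH.ml (fun S => (S.card : ℝ) * a S) x) _ _
    rw [e] at h1
    rw [← ofReal_lpNorm m1, ← ofReal_lpNorm m2, ← ENNReal.ofReal_mul (by positivity),
      ENNReal.ofReal_le_ofReal_iff (mul_nonneg (by positivity) lpNorm_nonneg)] at h1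
    exact h1
  · intro hp2
    refine ⟨2 * Real.exp 1 * (p - 1) / p, by
      have : 0 < p - 1 := by linarith
      positivity, fun d n _ _ f hf => ?_⟩
    exact H88BM.real_bernstein_markov p hp2 n d f hf

end Pool.Agent.Results.MP_b4c0b6_an.GaussComplete
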